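import Mathlib
import Pool.Agent.RG1.Fin6
import Pool.Agent.RG1.One

/-!
# The fibered Farrell-Jones conjecture in A-theory for Artin groups

The class of the groups which satisfy the conjecture (with finite wreath products) contains the
finite groups, `ℤ`, the groups `GL_n(ℤ)` and the groups which act by isometries, cocompactly and
with finite stabilizers on simply connected piecewise Euclidean complexes of dimension two with
the link condition (CAT(0) groups); it is closed under isomorphism, subgroups, products and free
products of two groups, overgroups of finite index and directed colimits, and contains a group `G`
if it contains a group `Q` and the preimages of the cyclic subgroups of `Q` under a homomorphism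
`G → Q`. Let `C` be such a class and `A` the Artin group with the set `S` of generators, finite or
not, and the labels `m s t` in `{2, 3, ..., ∞}`. A triple of generators is spherical if it
generates a finite Coxeter group, and a set `T` of generators is sparse if an irreducible subset
`{i, j, t, u}` with `m i j > 2` never contains two spherical triples `{i, j, t}` and `{i, j, u}`.

`result`: `A` is in `C` if each finite irreducible set `T` of at least four generators without
infinite labels satisfies one of the following conditions: the parabolic subgroup `A_T` is in `C`;
or `1 / p + 1 / q + 1 / r ≤ 1` for some `i`, `j`, `k` in `T`, where `p = m j k` if `T - i` is
sparse and `p = 2` otherwise, and similarly `q` for `i`, `k` and `r` for `i`, `j`. In particular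
`C` contains

* all Artin groups with at most three generators and all Artin groups such that any four generators
  have an infinite label;
* all Artin groups such that any five generators have an infinite label, and any four without
  infinite labels are reducible or contain a triple which is not spherical (this only excludes
  seventeen irreducible types: `A₄`, `B₄`, `D₄`, `F₄`, `H₄`, three affine and nine compact
  hyperbolic ones);
* all Artin groups of sparse sets of generators, for example the locally reducible ones (three
  generators are never of type `A₃`, `B₃` or `H₃`), such as the ones of dimension at most two and
  the even ones.

Proof. By directed colimits we may suppose that `S` is finite; induction on its size. Let `W` be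
the Coxeter group and `p : A → W`.

1. (`AIR/Roots`, `AIR/Coc`, `AIR/Cmp`, `AIR/Vdl`) For `X ⊆ S` there is a cocycle
`c : W × A → A_X` (Charney and Paris): it sends the generator `s` at `g` to `x ∈ X` if
`m s = x m` for the minimal element `m` of `W_X g`, and to `1` otherwise. Consequences: parabolic
subgroups are Artin groups, and their intersections are parabolic (van der Lek).

2. (`AIR/Integral`, `AIR/Roots2`, `AIR/Core`, `AIR/Wz`, `AIR/Ind`, `AIR/Vert`) For `w ∈ W` let `H`
be the preimage of the group generated by `w`, and `X ≠ S`. There is a homomorphism from `H` to a
group of the class which is injective on `H ∩ A_X`: the values of the cocycle at the powers of `w`
give a homomorphism of a subgroup of finite index to the unrestricted wreath product of `A_X` and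
`ℤ`. By the theorem of Skolem, Mahler and Lech, elementary for integral matrices, the roots `d` with
`w ^ i d` in the span of `X` for infinitely many `i` belong to a parabolic subgroup; modulo a
homomorphism to its Artin group the values of the kernel are finitely supported.

3. (`RG1`) Relative lemma of Appel and Schupp over one generator: for a spherical triple
`{t, i, j}` an alternating product of less than `2 m i j` elements of `A_{t i}` and `A_{t j}`, none
in `A_t`, is not in `A_t`. If `m t j = 2` this is a statement on products
`x₁ j^(b₁) x₂ j^(b₂) ⋯` with `x_l ∈ A_{t i}`, and follows from the reflection representation of
dimension three of the Hecke algebra with a real parameter: the coefficients of the vectors and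
covectors which are fixed by `A_{t i}` give polynomial equations for the matrix coefficients
`c(x_l)`, and `c(x) ≠ 0` for some parameter if `x ∉ A_t`, by normal forms and positivity.

4. (`Helper9/EV`, `Helper83/EV`, `AIR/Lr`, `RG1/Sparse`) The same lemma over `T ⊆ S` if
`T + i + j` is sparse. Induction on `T`: if some triple `{i, j, t}` is not spherical, by chamber
systems over `W` and the law of sines for three roots; otherwise at most one `t ∈ T` does not
commute with `i` and `j`, and the other elements of `T` commute with `i`, `j` and `t`.

5. (`Helper9`, `Helper3`, `Helper13`, `Helper63`) Let `G` act on a simply connected typed complex
of dimension two, and suppose that for finitely many stabilizers there is a homomorphism to a group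
of the class which is injective on them. Then `G` is in the class: by the extension property and by
colimits we may pass to a group generated by stabilizers of vertices; the quotient by the subgroup
`R` which they generate is again such a complex, with a map from its chambers to the Coxeter group,
heights from the Tits representation, and a free edge at the highest vertex, so it collapses, and
`R` is a colimit of groups acting on trees.

6. (`AIR/Step`) Let `I ⊆ S` consist of two generators with infinite label or of three which are
not a spherical triple, and `T = S - I`. The cosets of `A_T`, `A_{T + s}`, `A_{T + s + t}` form a
typed complex of dimension one or two (`Helper63/EV`), and steps 2, 4 and 5 show that the groups `H`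
of step 2 are in the class; by the extension property for `p`, so is `A`. More generally the lemma
of step 4 may hold with smaller labels on `I`, for example `2`, if these labels are not spherical
(`RG1/Step2`).

7. (`AIR/Main`, `BR3/Merge`, `RG1/Fin6`) If there is no such `I`, then `A` is a product of dihedral
and cyclic Artin groups (`Helper54/TD` for the dihedral ones) or one of the groups `A_T` of the
hypothesis or of type `A₃`, `B₃`, `H₃`.

8. (`BR3`, `Helper13/BR`) Types `A₃`, `B₃`, `H₃`: the dual presentation, with the reflections as
generators and the factorizations of a Coxeter element `δ` as relations. Following Brady, the cosets
of `⟨δ⟩` are the vertices of a simply connected complex of equilateral triangles whose links have no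
circuits with less than six edges (two elements of length two have at most one common divisor of
length one). The stabilizers of the vertices are the conjugates of `⟨δ⟩`, on which the length, a
homomorphism to `ℤ`, is injective, and groups which act in this way on such a complex are in `C`
(`Helper3/FJ`).
-/

set_option autoImplicit false

namespace Pool.Agent.Results.MP_59dd5b_al.ArtinGroups

open Pool.Agent.Helper29.BA Pool.Agent.Helper29.PA Pool.Agent.Helper3.FJ Pool.Agent.Helper13.LT
  Pool.Agent.RG1

open scoped MatrixGroups

theorem result (C : ∀ (G : Type) [Group G], Prop) (hE : ExtClass C) (hC : CatClass C)
    (hGL : ∀ n, C (GL (Fin n) ℤ)) (S : Type) (M : CoxeterMatrix S) (hM : Good6 C M) :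
    C (ArtinGroup M) :=
  artin_main6 rg_one hE hC hGL M hM

end Pool.Agent.Results.MP_59dd5b_al.ArtinGroups
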