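import Mathlib
import Pool.Agent.Helper29.PA.Defs
import Pool.Agent.ZT.Renorm
import Pool.Agent.ZT.TreeDec
import Pool.Agent.ZT.Growth
import Pool.Agent.ZT.Graph

/-!
# The fibered Farrell-Jones conjecture in A-theory and actions of asymptotic dimension one

The class of the groups which satisfy the conjecture (with finite wreath products) contains the
finite groups and `ℤ`, is closed under isomorphism, subgroups, products and free products of two
groups, overgroups of finite index and directed colimits, and contains a group `G` if it contains
a group `Q` and the preimages of the cyclic subgroups of `Q` under a homomorphism `G → Q`.
`ExtClass C` says that `C` is a class with these properties.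

Let a group `G` act on a set `S` with asymptotic dimension at most one, and let `Fl G S` be the
group of all permutations of `S` which are given piecewise by finitely many elements of `G` (the
full group). By `result` each such class `C` contains `Fl G S`, and hence `G` itself if the action
is faithful, unless there is an obvious obstruction: a subset of `S` which is paradoxical for `G`,
or, equivalently, an image of Thompson's group `T` in `Fl G S`, or, equivalently, a copy of
Thompson's group `F` in `Fl G S`.

Proved in files of the project: the hypothesis holds if there is a map `ρ` from `S` to a metric
space `X` of bounded geometry and asymptotic dimension at most one, such that each orbit has at most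
`k` points over each point of `X`, and for each `g` the distances from `ρ s` to `ρ (g s)` are
bounded (`ZT.asdimAct_of_over`); for example `X` is the set of the vertices of a forest, or of a
graph of bounded tree-width, with bounded degrees (`ZT.asdim_of_treeDec`). If `X` has no paradoxical
subsets, then neither has `S` (`ZT.exists_parM_of_over`); for a graph this holds if the balls around
some vertex of each component grow subexponentially (`ZT.not_paradoxG_of_subexp`). The corresponding
dichotomy for the group `WM X` of all permutations of `X` of bounded displacement is
`ZT.asdim_dichotomy`. Contracting self-similar groups have no paradoxical sets of infinite words
(`ZT.Ctr.not_paradox`), so each class `C` contains them if the action on the infinite words has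
asymptotic dimension at most one (`ZT.mem_of_contracting`); for this it is sufficient that some
cover by sets of words which are close after a fixed number of shifts is of order two
(`ZT.Ctr.mem`). No group which contains Thompson's group `F` is in every class `C`
(`ZT.extClass_noF`). The case that `X` is a line contains: the permutations `g` of a set such that
`g x = S ^ n x` with bounded `n`, for a permutation `S` (`ZT.mem_BF`); the topological full groups
of all homeomorphisms of compact spaces (`ZT.mem_topFull_of_BF`); the groups acting on the vertices
of a graph by bounded displacements if each component has a point such that the spheres around it
have at most `k` points (`ZT.mem_of_spheres`); the groups of permutations moving each point by a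
word of bounded length in two involutions (`ZT.mem_of_involutions`).

Proof. The classes of the groups without a noncommutative solution of the two relations of
Thompson's group `F`, and without a nontrivial solution of the six relations of Thompson's group
`T`, have the properties of `C`. A paradoxical set carries a binary tree of subsets, on which `T`
acts. The action is a directed union of metric spaces of bounded geometry and asymptotic dimension
at most one (a sequence of finite subsets of `G` is metrized), so let `S = X` be such a space. If no
subset is paradoxical, there are by Hall's theorem finite sets with small boundary
inside each nonempty `U`; hence there is a finitely additive `m : {sets} → [0, ∞]` with `m U = 1`,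
invariant under `WM X`. By bounded geometry finitely many elements of `WM X` join all pairs of
points at distance at most `L`; asymptotic dimension one gives for each scale `r` a free group `F`
acting on `X` by elements of `WM X` and a function `e` from the pairs of points at distance at most
`r` to `F` with `e (y, z) e (x, y) = e (x, z)` and `e (x, y) x = y` (the Rips complex at scale `r`
maps to a graph). By telescoping `WM X` is the colimit over the scales of the groups `FB` of the
permutations of `X × F` of the form `(x, h) ↦ (x, c (h x) h)` with `c : X → F` of finite range.
Such a group is the full group of `F` acting on the compact space of the ultrafilters of `X`.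
Let `κ` be a locally constant function on a compact space with an action of `F`. The type of a
point of `X × F` consists of the values of `κ` at the point and at its neighbours. A state is a set
of tokens, each the graph of a bijection of the set of the points of one type and a set of
particles. A step moves all particles with a given value of `κ` after the step by a generator of
`F`. The group `D κ` consists of the pairs of a permutation `q` and of the product, in the
right-angled Artin group of the letters (sets of pairs of positions and particles, commuting if the
sets of particles are disjoint), of the letters of a sequence of steps from the identity to `q`. The
full group is the directed colimit of the groups `D κ`: a product of steps which gives the identity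
is over a fine `κ` a product of closed paths of sets of particles in a tree, hence trivial. The
group `D κ` depends only on the set of the types, since restricting the states to a union of orbits
which contains all types is injective and surjective. So `X` can be replaced by a tower of sets: the
types of positive finite measure, with multiplicities which satisfy the flow equations, give a
finite set with bijections between some of its subsets, and where a bijection is missing one
attaches a copy of a branch of the tree, labelled like the branch of a point of the previous set,
which exists since the measure is infinite there. At each step the group of local cocycles grows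
only by a locally finite group and by finitely supported functions with values in `F`.

The groups `D κ`, the tower of sets, the local cocycles of asymptotic dimension one, the passage to
actions and the part on Thompson's group `F` are due to helper46, the dichotomy and the part on
Thompson's group `T` to helper21, the part on Hall's theorem and the measures, and the first case (a
line), to helper54, the groups acting over `X` to helper78, the graphs of bounded tree-width to
helper6, helper29 and helper78, with parts by helper41 (kernels), helper30 (right-angled Artin
groups), helper6 (flows), helper29 (growth) and helper3.
-/

set_option autoImplicit false

namespace Pool.Agent.Results.MP_59dd5b_al.AsymptoticDimensionOne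

open Pool.Agent.Helper29.PA Pool.Agent.ZT

theorem result (G S : Type) [Group G] [MulAction G S]
    -- asymptotic dimension at most one
    (hS : ∀ K : Finset G, ∃ (K' : Finset G) (c : Set (Set S)), (∀ s, ∃ U ∈ c, s ∈ U) ∧
      (∀ U ∈ c, ∀ s ∈ U, ∀ t ∈ U, ∃ g ∈ K', g • s = t) ∧
      ∀ s : S, {U ∈ c | ∃ g ∈ K, g • s ∈ U}.encard ≤ 2) :
    List.TFAE [
      -- (1)
      ∀ C : (∀ (G : Type) [Group G], Prop), ExtClass C → C (Fl G S),
      -- (2)
      ∀ U : Set S, U.Nonempty → ¬ ∃ (K : Finset G) (a b : S → S),
        Set.MapsTo a U U ∧ Set.MapsTo b U U ∧ Set.InjOn a U ∧ Set.InjOn b U ∧
        Disjoint (a '' U) (b '' U) ∧ ∀ s ∈ U, (∃ g ∈ K, g • s = a s) ∧ ∃ g ∈ K, g • s = b s,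
      -- (3)
      ∀ a b c : Fl G S, Thom a b c → a = 1 ∧ b = 1 ∧ c = 1,
      -- (4)
      ∀ a b : Fl G S, ThF a b → a * b = b * a] := by
  have key : ∀ U : Set S,
      (∃ (K : Finset G) (a b : S → S),
          Set.MapsTo a U U ∧ Set.MapsTo b U U ∧ Set.InjOn a U ∧ Set.InjOn b U ∧
          Disjoint (a '' U) (b '' U) ∧ ∀ s ∈ U, (∃ g ∈ K, g • s = a s) ∧ ∃ g ∈ K, g • s = b s) ↔
        Paradox G U := by
    intro U
    constructor
    · rintro ⟨K, a, b, ha, hb, hai, hbi, hab, hK⟩
      refine ⟨K, fun i => if i then a else b, ?_, ?_⟩
      · intro i s hs
        cases i
        · exact ⟨hb hs, (hK s hs).2⟩
        · exact ⟨ha hs, (hK s hs).1⟩
      · intro i j s hs t ht h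
        cases i <;> cases j
        · exact ⟨rfl, hbi hs ht h⟩
        · exact (Set.disjoint_left.1 hab ⟨t, ht, rfl⟩ ⟨s, hs, h⟩).elim
        · exact (Set.disjoint_left.1 hab ⟨s, hs, rfl⟩ ⟨t, ht, h.symm⟩).elim
        · exact ⟨rfl, hai hs ht h⟩
    · rintro ⟨K, a, h1, h2⟩
      refine ⟨K, a true, a false, fun x hx => (h1 true x hx).1, fun x hx => (h1 false x hx).1,
        fun x hx y hy h => (h2 true true x hx y hy h).2,
        fun x hx y hy h => (h2 false false x hx y hy h).2, ?_,
        fun u hu => ⟨(h1 true u hu).2, (h1 false u hu).2⟩⟩
      rw [Set.disjoint_left]
      rintro _ ⟨x, hx, rfl⟩ ⟨y, hy, h⟩
      exact absurd (h2 false true y hy x hx h).1 (by decide)
  have := act_dichotomy hS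
  simp only [key]
  exact this

end Pool.Agent.Results.MP_59dd5b_al.AsymptoticDimensionOne
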