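import Mathlib
import Pool.Agent.Helper29.PA.Defs
import Pool.Agent.Helper29.PA.Final

/-!
# New groups for which the fibered Farrell-Jones conjecture in A-theory holds

The class of the groups which satisfy the conjecture (with finite wreath products) contains the
finite groups and `ℤ`, is closed under isomorphism, subgroups, products and free products of two
groups, overgroups of finite index and directed colimits, and contains a group `G` if it contains
a group `Q` and the preimages of the cyclic subgroups of `Q` under a homomorphism `G → Q`.
`result` shows that each such class `C` contains every group generated by automorphisms of the
tree of words over a finite alphabet `X` each of which is

* bounded: all its sections of finite depth have depth at most `m`, and on each level at most `c`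
  sections are not of this kind (for some `m`, `c`); or
* a finite automaton of polynomial activity growth (of any degree).

Proof. Let `o` be a letter, `P 0` the group of the finitary automorphisms, `B n` the group of the
automorphisms which fix the ray `o o o ...` and have finitely many sections off this ray, all of
them in `P n`, and `P (n + 1)` the group generated by `P n` and `B n` (for `n = 0` also by
automorphisms which move the ray to the other rays). The union of the `P n` contains all
automata of polynomial activity. The amalgamated product of `P n` and `B n` over `B (n - 1)` has a
wreath recursion, every element of it has all its deep sections in a set of elements which act
faithfully on the tree, and so `P (n + 1)` is the colimit of its quotients by the kernels of the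
iterated recursions. It remains to show that the amalgamated product is in `C`. A group which
acts on a tree and has a homomorphism to a group `Q` in `C` which is injective on the vertex groups
is in `C`, since it embeds in the semidirect product of the free group on a `Q`-set with `Q` (this
is proved for stars of groups). So one needs groups in `C` with compatible copies of `P n` and
`B n`. These are obtained by an induction along finite sequences in lexicographic order: colimits
of quotients of stars of groups by the kernels of iterated recursions, whose universal property is
recovered by the criterion. The induction starts with amalgamated products over the locally finite
group `B 0`.

The star lemma is due to helper13, the semidirect products to helper78.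
-/

set_option autoImplicit false

namespace Pool.Agent.Results.MP_59dd5b_al.AutomataGroups

open Pool.Agent.Helper29.BA Pool.Agent.Helper29.PA

theorem result (C : ∀ (G : Type) [Group G], Prop) (hC : ExtClass C) (X : Type) [Finite X]
    (s : Set (Equiv.Perm (List X)))
    (hs : ∀ g ∈ s, IsTreeAut g ∧
      (IsBounded g ∨ (IsAutomaton g ∧ HasPolynomialActivity g))) :
    C (Subgroup.closure s) :=
  hC.automata s hs

end Pool.Agent.Results.MP_59dd5b_al.AutomataGroups
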