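import Mathlib
import Pool.Agent.Helper29.PA.Defs
import Pool.Agent.IEF.Line

/-!
# The fibered Farrell-Jones conjecture in A-theory and piecewise isometric permutations of the line

The class of the groups which satisfy the conjecture (with finite wreath products) contains the
finite groups, `ℤ` and all groups `GL (Fin n) ℤ`, is closed under isomorphism, subgroups, products
and free products of two groups, overgroups of finite index and directed colimits, and contains a
group `G` if it contains a group `Q` and the preimages of the cyclic subgroups of `Q` under a
homomorphism `G → Q`. `ExtClass C` says that `C` is a class with these properties, except for the
groups `GL (Fin n) ℤ`.

By `result` each such class contains, for every linearly ordered field `K`, for example for the real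
numbers, every group of permutations of the line `K` which are isometric on each component of the
complement of a finite set. The groups of permutations of the interval `[0, 1)` which are isometric
on each component of the complement of a finite set are a special case (extend the permutations by
the identity); these include the interval exchange transformations, with flips, and the
permutations which differ from one of them at finitely many points. For groups of interval exchange
transformations of `[0, 1)` without flips the extension property is not needed
(`IEF.mem_of_isIET`, in `Pool/Agent/IEF/Main.lean`).

Proof. Let `b` be a finite family of positive elements of `K` which is linearly independent over
`ℤ`, and let a floor be an interval of length `b a`, where `a` is the type of the floor. If `i`, `j`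
are disjoint floors, let `x i j` be the permutation of their union for which the place of the image
of a point in the row `i`, `j` is the place of the point in the row `j`, `i`. These permutations
satisfy the Yang-Baxter relations `x i j * x i k * x j k = x j k * x i k * x i j`,
`x i j * x j i = 1`, commute if the pairs of floors are disjoint, and if `i`, `j` have the same
type, then `x i j = x j i` and `x i j * x i k = x j k * x i j`. Let `P` be the group presented by
these relations, for a set of disjoint floors. For two lists `V`, `W` of the same floors let
`X V W` be the product in `P` of the `x i j` along a sequence of exchanges of neighbours from `V` to
`W`, which depends only on `V` and `W`. If the numbers `b a` are sums of numbers `b' a'` of another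
family, the floors are subdivided, and `x i j` maps to `X V W` for the list `V` of the parts of `i`
and of `j` and the list `W` of the parts of `j` and of `i`. This gives a homomorphism `P → P'`
compatible with the actions on `K`. There is a sequence of such families in which each positive
element of the group generated by `b` is a sum at some level. The colimit of the groups `P` of the
levels acts faithfully: at a later level each element has the form `X U V * (X U W)⁻¹` where `U` is
the list of all floors (by interpolation, lists of the same length can be made lists of equal types
by subdivision and rearrangement inside the parts), and if such an element acts trivially, then `V`
is `W` at a later level, up to floors of equal types. The restricted rotations, which exchange two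
adjacent intervals, generate all interval exchange transformations of `[0, 1)` and are of this form.
Finally, `P` embeds into the semidirect product of the group with the generators `x i j` and only
the relations of Yang-Baxter, of inverses and of commutation (the triangular group of Bartholdi,
Enriquez, Etingof and Rains) with the group of the permutations of the floors which preserve the
types, and the first group embeds into the semidirect product of a Coxeter group with generators
`d i j` and labels `2`, `3` (for `d i j`, `d j k`) and `∞` with the group of all permutations of the
floors. Coxeter groups with such labels embed into groups `GL (Fin n) ℤ`.

The permutations of `[0, 1)` with flips act on the one-sided germs of points, that is, on the set of
the `x / 2` and `1 - x / 2`, by interval exchange transformations, and the kernel consists of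
permutations of finite support.

A permutation `g` of the line `K` which is isometric on the components of the complement of a finite
set has the form `g x = x + t` or `g x = -x + t` outside of a bounded set (the constant is the same
at both ends, since disjoint open intervals which cover an open interval up to a finite set have its
length as total length). So a group of such permutations acts faithfully on the interval `[-w, w)`
of an ultrapower of `K` with an infinite element `w`: apply the extension of `g` to the ultrapower,
and reduce modulo `2 * w`. This action is by permutations as above, with flips.

The files on the exchanges are due to helper41 (Yang-Baxter), helper78 and helper12 (semantics,
bases), helper29 (the groups `P`), helper46 (rotations, ordered fields), helper21 (generation by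
restricted rotations), helper3 (flips, interpolation), helper54 (levels, kernel), and helper78 (the
line).
-/

set_option autoImplicit false

namespace Pool.Agent.Results.MP_59dd5b_al.IntervalExchanges

open Pool.Agent.Helper29.PA Pool.Agent.IEF

theorem result (C : ∀ (G : Type) [Group G], Prop) (hC : ExtClass C)
    (hGL : ∀ n, C (Matrix.GeneralLinearGroup (Fin n) ℤ))
    (K : Type) [Field K] [LinearOrder K] [IsStrictOrderedRing K]
    (G : Subgroup (Equiv.Perm K))
    -- each element is isometric on the components of the complement of some finite set
    (hG : ∀ g ∈ G, ∃ F : Finset K, ∀ x y : K,
      (∀ c ∈ F, (c < x ∧ c < y) ∨ (x < c ∧ y < c)) → |g x - g y| = |x - y|) : C G :=
  mem_line hC hGL G hG

end Pool.Agent.Results.MP_59dd5b_al.IntervalExchanges
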